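import Pool.Agent.W2helper44.OT.Stm

set_option autoImplicit false

namespace Pool.Agent.W2helper79.OT

open Module Pool.Agent.W2helper44.OT

lemma kill (M : Type) [AddCommGroup M] (h : M →ₗ[ℤ] M) (m s : ℕ) (x : M)
    (hx : op h m s x = 0) : (m : ℤ) • x ∈ LinearMap.range (op h m (s + 1)) := by
  by_cases hs : Even s
  · have h1 : ¬ Even (s + 1) := by
      rw [Nat.not_even_iff_odd]
      exact hs.add_one
    rw [op, if_pos hs] at hx
    have hx1 : h x = x := by
      have : h x - x = 0 := hx
      exact sub_eq_zero.1 this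
    have hj : ∀ j : ℕ, (h ^ j : Module.End ℤ M) x = x := by
      intro j
      induction j with
      | zero => rfl
      | succ j ih =>
        rw [pow_succ]
        show (h ^ j : Module.End ℤ M) (h x) = x
        rw [hx1, ih]
    refine ⟨x, ?_⟩
    rw [op, if_neg h1, LinearMap.sum_apply, Finset.sum_congr rfl fun j _ => hj j,
      Finset.sum_const, Finset.card_range]
    exact (natCast_zsmul x m).symm
  · have h1 : Even (s + 1) := by
      rw [Nat.not_even_iff_odd] at hs
      exact hs.add_one
    rw [op, if_neg hs, LinearMap.sum_apply] at hx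
    refine ⟨-∑ j ∈ Finset.range m, (∑ i ∈ Finset.range j, (h ^ i : Module.End ℤ M)) x, ?_⟩
    rw [op, if_pos h1, map_neg, map_sum]
    have h2 : ∀ j ∈ Finset.range m,
        (h - 1 : Module.End ℤ M) ((∑ i ∈ Finset.range j, (h ^ i : Module.End ℤ M)) x) =
          (h ^ j : Module.End ℤ M) x - x := by
      intro j _
      have h3 := mul_geom_sum (h : Module.End ℤ M) j
      have h4 := congrArg (fun f : Module.End ℤ M => f x) h3
      exact h4
    rw [Finset.sum_congr rfl h2, Finset.sum_sub_distrib, hx, Finset.sum_const, Finset.card_range,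
      zero_sub, neg_neg]
    exact (natCast_zsmul x m).symm

theorem p_UNIT : P_UNIT := by
  intro M _ h m p hp hpm _ s k
  have h1 : ∀ t : Tate M h m s, (m : ℤ) • t = 0 := by
    intro t
    obtain ⟨⟨x, hx⟩, rfl⟩ := Submodule.Quotient.mk_surjective _ t
    rw [← Submodule.Quotient.mk_smul, Submodule.Quotient.mk_eq_zero]
    exact kill M h m s x hx
  have hc : IsCoprime ((p : ℤ) ^ k) (m : ℤ) := by
    apply IsCoprime.pow_left
    rw [Nat.isCoprime_iff_coprime]
    exact (Nat.Prime.coprime_iff_not_dvd hp).2 hpm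
  obtain ⟨a, b, hab⟩ := hc
  have h2 : LinearMap.range (((p : ℤ) ^ k) • (LinearMap.id : Tate M h m s →ₗ[ℤ] Tate M h m s)) = ⊤ := by
    rw [LinearMap.range_eq_top]
    intro t
    refine ⟨a • t, ?_⟩
    rw [LinearMap.smul_apply, LinearMap.id_apply, smul_smul]
    calc ((p : ℤ) ^ k * a) • t = (a * (p : ℤ) ^ k) • t + b • ((m : ℤ) • t) := by
          rw [h1 t, smul_zero, add_zero, mul_comm]
      _ = (a * (p : ℤ) ^ k + b * m) • t := by rw [add_smul, mul_smul b]
      _ = t := by rw [hab, one_smul]
  rw [cc, h2]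
  have : Subsingleton (Tate M h m s ⧸ (⊤ : Submodule ℤ (Tate M h m s))) :=
    Submodule.Quotient.subsingleton_iff.2 rfl
  exact Nat.card_unique

end Pool.Agent.W2helper79.OT
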